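import Pool.Agent.MP_f74662_gt.Mg.Count

set_option autoImplicit false

open Set Topology

namespace Pool.Agent.Results.MP_f74662_gt.AllLengths

/-- `X ≤ Y`: the set of reals `X` is homeomorphic to a subspace of `Y`. -/
def Emb (X Y : Set ℝ) : Prop := ∃ S : Set ℝ, S ⊆ Y ∧ Nonempty (X ≃ₜ S)

/-- `X < Y`: `X ≤ Y` and `Y` is not homeomorphic to any subspace of `X`. -/
def Less (X Y : Set ℝ) : Prop := Emb X Y ∧ ¬ Emb Y X

/-- `X p Y`: `X < Y` and no set of reals `Z` satisfies `X < Z < Y`. -/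
def Prec (X Y : Set ℝ) : Prop := Less X Y ∧ ¬ ∃ Z : Set ℝ, Less X Z ∧ Less Z Y

lemma Emb.trans {X Y Z : Set ℝ} (h : Emb X Y) (h' : Emb Y Z) : Emb X Z := by
  unfold Emb at *
  rw [MP_f74662_gt.emb_iff_sub] at *
  obtain ⟨f, hf⟩ := h
  obtain ⟨g, hg⟩ := h'
  exact ⟨_, hg.comp hf⟩

lemma Emb.refl (X : Set ℝ) : Emb X X := ⟨X, subset_rfl, ⟨Homeomorph.refl _⟩⟩

lemma chain_le {N : ℕ} {X : ℕ → Set ℝ} (h : ∀ i, 1 ≤ i → i < N → Prec (X i) (X (i + 1)))
    {i j : ℕ} (hi : 1 ≤ i) (hij : i ≤ j) (hj : j ≤ N) : Emb (X i) (X j) := by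
  induction j, hij using Nat.le_induction with
  | base => exact Emb.refl _
  | succ j hij ih => exact (ih (by omega)).trans (h j (by omega) (by omega)).1.1

/-- For every `N > 1` there is a configuration of length `N`; it consists of countable subsets of
the Cantor set, and `B` is incomparable with every `A_i`. -/
theorem result (N : ℕ) (hN : 1 < N) :
    ∃ (A B C : Set ℝ) (X : ℕ → Set ℝ),
      (Prec A B ∧ Prec B C) ∧
      (Prec A (X 1) ∧ (∀ i, 1 ≤ i → i < N → Prec (X i) (X (i + 1))) ∧ Prec (X N) C) ∧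
      (A.Countable ∧ A ⊆ cantorSet) ∧ (B.Countable ∧ B ⊆ cantorSet) ∧
      (C.Countable ∧ C ⊆ cantorSet) ∧
      ∀ i, 1 ≤ i → i ≤ N →
        ((X i).Countable ∧ X i ⊆ cantorSet) ∧ ¬ Emb B (X i) ∧ ¬ Emb (X i) B := by
  obtain ⟨e, he, hc⟩ := MP_f74662_gt.exists_emb_cantor
  obtain ⟨A, B, C, X, h1, h2, h3, h4, h5, h6⟩ := MP_f74662_gt.config_cnt N hN.le
  have key : ∀ U V, MP_f74662_gt.Cov U V → Prec (e '' U) (e '' V) := by
    intro U V h
    simp only [Prec, Less, Emb, MP_f74662_gt.emb_iff_sub]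
    exact MP_f74662_gt.transfer he h
  have hsub : ∀ U, e '' U ⊆ cantorSet := by
    rintro U _ ⟨x, -, rfl⟩
    exact hc x
  have hAB := key _ _ h1
  have hBC := key _ _ h2
  have hA1 := key _ _ h3
  have hch : ∀ i, 1 ≤ i → i < N → Prec (e '' X i) (e '' X (i + 1)) :=
    fun i hi hi' => key _ _ (h4 i hi hi')
  have hNC := key _ _ h5
  have hle : ∀ {i j : ℕ}, 1 ≤ i → i ≤ j → j ≤ N → Emb (e '' X i) (e '' X j) :=
    fun hi hij hj => chain_le (X := fun i => e '' X i) hch hi hij hj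
  have hXC : ∀ i, 1 ≤ i → i ≤ N → MP_f74662_gt.Le (X i) C := by
    intro i hi hi'
    induction hi' using Nat.decreasingInduction with
    | self => exact h5.1
    | of_succ k hk ih => exact (h4 k hi hk).1.trans (ih (by omega))
  have hno : ∀ i, 1 ≤ i → i ≤ N → Emb (e '' B) (e '' X i) → Emb (e '' X i) (e '' B) → False := by
    intro i hi hi' a b
    by_cases h : i = 1
    · subst h
      have h12 := hch 1 le_rfl hN
      exact hBC.2 ⟨e '' X 2, ⟨a.trans h12.1.1, fun c => h12.1.2 (c.trans a)⟩,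
        (hle (by omega) hN le_rfl).trans hNC.1.1,
        fun c => hNC.1.2 (c.trans (hle (by omega) hN le_rfl))⟩
    · have h12 := hch 1 le_rfl hN
      exact hAB.2 ⟨e '' X 1, hA1.1, (hle le_rfl hi hi').trans b,
        fun c => h12.1.2 (((hle (by omega) (by omega) hi').trans b).trans c)⟩
  refine ⟨e '' A, e '' B, e '' C, fun i => e '' X i, ⟨hAB, hBC⟩, ⟨hA1, hch, hNC⟩,
    ⟨((h1.1.trans h2.1).countable h6).image e, hsub _⟩, ⟨(h2.1.countable h6).image e, hsub _⟩,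
    ⟨h6.image e, hsub _⟩, fun i hi hi' => ⟨⟨((hXC i hi hi').countable h6).image e, hsub _⟩,
      fun a => ?_, fun b => ?_⟩⟩
  · by_cases b : Emb (e '' X i) (e '' B)
    · exact hno i hi hi' a b
    · exact hBC.2 ⟨e '' X i, ⟨a, b⟩, (hle hi hi' le_rfl).trans hNC.1.1,
        fun c => hNC.1.2 (c.trans (hle hi hi' le_rfl))⟩
  · by_cases a : Emb (e '' B) (e '' X i)
    · exact hno i hi hi' a b
    · exact hAB.2 ⟨e '' X i, ⟨hA1.1.1.trans (hle le_rfl hi hi'),
        fun c => hA1.1.2 ((hle le_rfl hi hi').trans c)⟩, b, a⟩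

end Pool.Agent.Results.MP_f74662_gt.AllLengths
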